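import Pool.Graph.R_pool_sql_team_seeded_707910d6.T2H15.CO.Four

/-!
# Balanced pairs: pigeonhole, Ramsey's theorem for pairs, one block
-/

namespace Pool.Agent.H42.Bal

open Finset Pool.Agent.H278R2.UltraLocal Pool.Agent.T2H15.CO

/-- pigeonhole principle -/
theorem pigeon {α β : Type*} [DecidableEq β] (s : Finset α) (t : Finset β) (f : α → β)
    (hf : ∀ a ∈ s, f a ∈ t) (ht : t.Nonempty) :
    ∃ y ∈ t, s.card ≤ t.card * (s.filter (fun a => f a = y)).card := by
  obtain ⟨y, hy, hmax⟩ := exists_max_image t (fun y => (s.filter (fun a => f a = y)).card) ht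
  refine ⟨y, hy, ?_⟩
  rw [card_eq_sum_card_fiberwise hf]
  calc ∑ b ∈ t, (s.filter (fun a => f a = b)).card ≤
      ∑ _b ∈ t, (s.filter (fun a => f a = y)).card := sum_le_sum fun b hb => hmax b hb
    _ = _ := by rw [sum_const, smul_eq_mul]

variable {V : Type*} [DecidableEq V]

/-- Ramsey's theorem for pairs and `q` colours -/
theorem ramsey {q : ℕ} (hq : 2 ≤ q) (g : V → V → Fin q) (hg : ∀ x y, g x y = g y x) :
    ∀ (N : ℕ) (s : Fin q → ℕ), ∑ i, s i = N → ∀ M : Finset V, q ^ N ≤ M.card →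
      ∃ i, ∃ S ⊆ M, S.card = s i ∧ ∀ x ∈ S, ∀ y ∈ S, x ≠ y → g x y = i := by
  intro N
  induction N with
  | zero =>
    intro s hs M _
    refine ⟨⟨0, by omega⟩, ∅, empty_subset _, ?_, by simp⟩
    have := (sum_eq_zero_iff.1 hs) ⟨0, by omega⟩ (mem_univ _)
    simp [this]
  | succ N ih =>
    intro s hs M hM
    by_cases h0 : ∃ i, s i = 0
    · obtain ⟨i, hi⟩ := h0
      exact ⟨i, ∅, empty_subset _, by simp [hi], by simp⟩
    · push Not at h0
      have hpos : 0 < q ^ (N + 1) := Nat.pow_pos (by omega)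
      obtain ⟨x, hx⟩ := card_pos.1 (lt_of_lt_of_le hpos hM)
      have : Nonempty (Fin q) := ⟨⟨0, by omega⟩⟩
      obtain ⟨i, _, hi⟩ := pigeon (M.erase x) (univ : Finset (Fin q)) (fun y => g x y)
        (fun _ _ => mem_univ _) univ_nonempty
      rw [card_univ, Fintype.card_fin, card_erase_of_mem hx] at hi
      have hbig : q ^ N ≤ ((M.erase x).filter (fun y => g x y = i)).card := by
        by_contra hcon
        push Not at hcon
        have h1 : ((M.erase x).filter (fun y => g x y = i)).card + 1 ≤ q ^ N := hcon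
        have h2 : q * (((M.erase x).filter (fun y => g x y = i)).card + 1) ≤ q * q ^ N :=
          Nat.mul_le_mul_left _ h1
        have h3 : q * q ^ N = q ^ (N + 1) := by ring
        rw [Nat.mul_add, h3] at h2
        omega
      have hsum : ∑ j, Function.update s i (s i - 1) j = N := by
        have h1 : ∑ j, Function.update s i (s i - 1) j = (s i - 1) + ∑ j ∈ univ \ {i}, s j := by
          rw [sum_update_of_mem (mem_univ i)]
        have h2 : ∑ j, s j = s i + ∑ j ∈ univ \ {i}, s j := by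
          rw [sdiff_singleton_eq_erase, add_sum_erase _ _ (mem_univ i)]
        have := h0 i
        omega
      obtain ⟨i', S, hS, hSc, hSm⟩ := ih _ hsum _ hbig
      by_cases hii : i' = i
      · subst hii
        rw [Function.update_self] at hSc
        have hxS : x ∉ S := fun h => by
          have := (mem_filter.1 (hS h)).1
          exact (mem_erase.1 this).1 rfl
        refine ⟨i', insert x S, ?_, ?_, ?_⟩
        · refine insert_subset hx (hS.trans ((filter_subset _ _).trans (erase_subset _ _)))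
        · rw [card_insert_of_notMem hxS]
          have := h0 i'
          omega
        · intro a ha b hb hab
          rw [mem_insert] at ha hb
          rcases ha with rfl | ha <;> rcases hb with rfl | hb
          · exact absurd rfl hab
          · exact (mem_filter.1 (hS hb)).2
          · rw [hg]
            exact (mem_filter.1 (hS ha)).2
          · exact hSm a ha b hb hab
      · rw [Function.update_of_ne hii] at hSc
        exact ⟨i', S, hS.trans ((filter_subset _ _).trans (erase_subset _ _)), hSc, hSm⟩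

/-- `A` and `B` lie below two different children of a vertex of the tree. -/
def Sep (ρ : V → V → ℕ) (A B : Finset V) : Prop :=
  ∀ x ∈ A, ∀ z ∈ B, (∀ x' ∈ A, ρ x x' < ρ x z) ∧ ∀ z' ∈ B, ρ z z' < ρ x z

/-- One block. -/
theorem block {ρ : V → V → ℕ} (hρ : IsUltrametric ρ) (K : ℕ) (hK1 : 1 ≤ K)
    (hK : ∀ S : Finset V, Equilateral ρ S → S.card ≤ K) (h : ℕ) (hh : ∀ x y, ρ x y ≤ h)
    {q : ℕ} (hq : 2 ≤ q) (c : Finset V → Fin q) (r : ℕ) (A : Finset V)
    (hA : 2 * (h * K * q ^ (q * r)) + 2 ≤ A.card) :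
    ∃ L ⊆ A, ∃ M ⊆ A, ∃ e : Fin q, M.card = r ∧ Sep ρ L M ∧
      (∀ x ∈ L, ∀ z ∈ M, ∀ z' ∈ M, z ≠ z' → c {x, z, z'} = e) ∧
      A.card ≤ 2 * K * ((q ^ (q * r)) ^ r * q) * L.card := by
  classical
  set R := q ^ (q * r) with hR
  have hR1 : 1 ≤ R := Nat.one_le_pow _ _ (by omega)
  have hs : h * ((K - 1) * (R - 1)) ≤ h * K * R := by
    rw [mul_assoc]
    exact Nat.mul_le_mul_left _ (Nat.mul_le_mul (by omega) (by omega))
  obtain ⟨L0, hL0, M0, hM0, hM0c, hAc, hsep⟩ := split hρ K hK R hR1 h A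
    (fun x _ y _ => hh x y) (by omega)
  have hne : (powersetCard r M0 ×ˢ (univ : Finset (Fin q))).Nonempty := by
    refine Nonempty.product ?_ ⟨⟨0, by omega⟩, mem_univ _⟩
    rw [powersetCard_nonempty, hM0c, hR]
    calc r ≤ q ^ r := (Nat.lt_pow_self (by omega)).le
      _ ≤ q ^ (q * r) := Nat.pow_le_pow_right (by omega) (by nlinarith)
  have hcl : ∀ x : V, ∃ p : Finset V × Fin q, p ∈ powersetCard r M0 ×ˢ (univ : Finset (Fin q)) ∧
      ∀ z ∈ p.1, ∀ z' ∈ p.1, z ≠ z' → c {x, z, z'} = p.2 := by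
    intro x
    obtain ⟨i, S, hS, hSc, hSm⟩ := ramsey hq (fun z z' => c {x, z, z'})
      (fun z z' => by rw [pair_comm]) (q * r) (fun _ => r) (by simp) M0 (by rw [hM0c])
    exact ⟨(S, i), mem_product.2 ⟨mem_powersetCard.2 ⟨hS, hSc⟩, mem_univ _⟩, hSm⟩
  choose p hp1 hp2 using hcl
  obtain ⟨⟨M, e⟩, hMe, hL⟩ := pigeon L0 (powersetCard r M0 ×ˢ (univ : Finset (Fin q))) p
    (fun x _ => hp1 x) hne
  have hM := (mem_powersetCard.1 (mem_product.1 hMe).1)
  refine ⟨L0.filter (fun x => p x = (M, e)), (filter_subset _ _).trans hL0, M, hM.1.trans hM0, e,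
    hM.2, ?_, ?_, ?_⟩
  · intro x hx z hz
    obtain ⟨h1, h2⟩ := hsep x (mem_filter.1 hx).1 z (hM.1 hz)
    exact ⟨fun x' hx' => h1 x' (mem_filter.1 hx').1, fun z' hz' => h2 z' (hM.1 hz')⟩
  · intro x hx z hz z' hz' hne
    have hx' := (mem_filter.1 hx).2
    have := hp2 x z (by rw [hx']; exact hz) z' (by rw [hx']; exact hz') hne
    rw [hx'] at this
    exact this
  · rw [card_product, card_powersetCard, card_univ, Fintype.card_fin, hM0c] at hL
    have h1 : R.choose r ≤ R ^ r := Nat.choose_le_pow _ _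
    have h2 : L0.card ≤ (R ^ r * q) * (L0.filter (fun x => p x = (M, e))).card :=
      hL.trans (Nat.mul_le_mul_right _ (Nat.mul_le_mul_right _ h1))
    have h3 : A.card ≤ 2 * (K * L0.card) := by omega
    calc A.card ≤ 2 * (K * L0.card) := h3
      _ ≤ 2 * (K * ((R ^ r * q) * (L0.filter (fun x => p x = (M, e))).card)) :=
        Nat.mul_le_mul_left _ (Nat.mul_le_mul_left _ h2)
      _ = _ := by ring

/-- Making the colours of the triples with two points in `U` independent of the third point. -/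
theorem homogenise {q : ℕ} (hq : 2 ≤ q) (c : Finset V → Fin q) (U L : Finset V) :
    ∃ W ⊆ L, L.card ≤ q ^ (U.card ^ 2) * W.card ∧
      ∀ z ∈ U, ∀ x ∈ U, ∀ y ∈ W, ∀ y' ∈ W, c {z, x, y} = c {z, x, y'} := by
  classical
  have : Nonempty (Fin q) := ⟨⟨0, by omega⟩⟩
  obtain ⟨φ, _, hφ⟩ := pigeon L (univ : Finset (U × U → Fin q))
    (fun y => fun p : U × U => c {p.1.1, p.2.1, y}) (fun _ _ => mem_univ _) univ_nonempty
  refine ⟨L.filter (fun y => (fun p : U × U => c {p.1.1, p.2.1, y}) = φ), filter_subset _ _, ?_, ?_⟩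
  · rw [card_univ, Fintype.card_fun, Fintype.card_prod, Fintype.card_coe, Fintype.card_fin,
      ← sq] at hφ
    exact hφ
  · intro z hz x hx y hy y' hy'
    have h1 := congrFun (mem_filter.1 hy).2 (⟨z, hz⟩, ⟨x, hx⟩)
    have h2 := congrFun (mem_filter.1 hy').2 (⟨z, hz⟩, ⟨x, hx⟩)
    simp only at h1 h2
    rw [h1, h2]

end Pool.Agent.H42.Bal
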