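import Pool.Agent.H42.Bal.Core

/-!
# Balanced pairs: explicit bounds
-/

namespace Pool.Agent.H42.Bal

open Finset Pool.Agent.H278R2.UltraLocal Pool.Agent.T2H15.CO

variable {V : Type*} [DecidableEq V]

theorem two_pow_le {a k : ℕ} (ha : 1 ≤ a) (hk : 2 ≤ k) : a ^ 2 ≤ a ^ k :=
  Nat.pow_le_pow_right ha hk

/-- the arithmetic of the losses -/
theorem bound {K q n k m h : ℕ} (hK1 : 1 ≤ K) (hq : 2 ≤ q) (hn : 1 ≤ n) (hk : 2 ≤ k)
    (hm : 1 ≤ m) :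
    loss K q (m * (2 * n * (2 * n * k) ^ (k - 1)))
        (q * (n * (2 * n * k)) * (m * (2 * n * (2 * n * k) ^ (k - 1)))) ^
        (q * (n * (2 * n * k))) *
        (2 * (h * K * q ^ (q * (m * (2 * n * (2 * n * k) ^ (k - 1))))) + 2) ≤
      (h + 1) * (q * K) ^ (4 * q ^ 3 * (m * (2 * n * k) ^ k) ^ 5) := by
  set r0 := m * (2 * n * (2 * n * k) ^ (k - 1)) with hr0
  set r := m * (2 * n * k) ^ k with hr
  set T := q * (n * (2 * n * k)) with hT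
  have ha : 1 ≤ 2 * n * k := by
    have : 0 < 2 * n * k := by positivity
    omega
  have hr0r : r0 ≤ r := by
    rw [hr0, hr]
    refine Nat.mul_le_mul_left _ ?_
    obtain ⟨k', rfl⟩ : ∃ k', k = k' + 1 := ⟨k - 1, by omega⟩
    rw [pow_succ, Nat.add_sub_cancel, mul_comm]
    exact Nat.mul_le_mul_left _ (Nat.le_mul_of_pos_right _ (by omega))
  have hpr : 2 * n * k * (2 * n * k) ≤ r := by
    rw [hr, ← sq]
    calc (2 * n * k) ^ 2 ≤ (2 * n * k) ^ k := two_pow_le ha hk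
      _ ≤ m * (2 * n * k) ^ k := Nat.le_mul_of_pos_left _ (by omega)
  have hTr : T ≤ q * r := by
    rw [hT]
    refine Nat.mul_le_mul_left _ (le_trans ?_ hpr)
    refine Nat.mul_le_mul_right _ ?_
    nlinarith
  have hr1 : 1 ≤ r := le_trans (by nlinarith) hpr
  have hP : T * r0 ≤ q * r ^ 2 := by
    calc T * r0 ≤ q * r * r := Nat.mul_le_mul hTr hr0r
      _ = q * r ^ 2 := by ring
  have hq1 : 1 ≤ q := by omega
  have hloss : loss K q r0 (T * r0) ≤ 2 * K * q ^ (2 * q ^ 2 * r ^ 4) := by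
    unfold loss
    have h1 : (q ^ (q * r0)) ^ r0 ≤ q ^ (q * r ^ 2) := by
      rw [← pow_mul]
      refine Nat.pow_le_pow_right hq1 ?_
      calc q * r0 * r0 = q * (r0 * r0) := by ring
        _ ≤ q * (r * r) := Nat.mul_le_mul_left _ (Nat.mul_le_mul hr0r hr0r)
        _ = q * r ^ 2 := by ring
    have h2 : q ^ ((T * r0) ^ 2) ≤ q ^ (q ^ 2 * r ^ 4) := by
      refine Nat.pow_le_pow_right hq1 ?_
      calc (T * r0) ^ 2 ≤ (q * r ^ 2) ^ 2 := Nat.pow_le_pow_left hP 2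
        _ = q ^ 2 * r ^ 4 := by ring
    have h3 : q * r ^ 2 + 1 ≤ q ^ 2 * r ^ 4 := by
      have : 2 * (q * r ^ 2) ≤ (q * r ^ 2) * (q * r ^ 2) := by
        refine Nat.mul_le_mul_right _ ?_
        calc 2 ≤ q * 1 := by omega
          _ ≤ q * r ^ 2 := Nat.mul_le_mul_left _ (Nat.one_le_pow _ _ hr1)
      have h4 : 0 < q * r ^ 2 := by positivity
      calc q * r ^ 2 + 1 ≤ 2 * (q * r ^ 2) := by omega
        _ ≤ _ := this
        _ = _ := by ring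
    calc 2 * K * ((q ^ (q * r0)) ^ r0 * q) * q ^ ((T * r0) ^ 2)
        ≤ 2 * K * (q ^ (q * r ^ 2) * q) * q ^ (q ^ 2 * r ^ 4) :=
          Nat.mul_le_mul (Nat.mul_le_mul_left _ (Nat.mul_le_mul_right _ h1)) h2
      _ = 2 * K * (q ^ (q * r ^ 2 + 1 + q ^ 2 * r ^ 4)) := by rw [pow_add, pow_add]; ring
      _ ≤ 2 * K * q ^ (2 * q ^ 2 * r ^ 4) := by
          refine Nat.mul_le_mul_left _ (Nat.pow_le_pow_right hq1 ?_)
          have : 2 * q ^ 2 * r ^ 4 = q ^ 2 * r ^ 4 + q ^ 2 * r ^ 4 := by ring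
          omega
  have hlossT : loss K q r0 (T * r0) ^ T ≤ (q * K) ^ (q * r) * q ^ (2 * q ^ 3 * r ^ 5) := by
    have hb1 : 1 ≤ 2 * K * q ^ (2 * q ^ 2 * r ^ 4) := by
      have : 0 < 2 * K * q ^ (2 * q ^ 2 * r ^ 4) := by positivity
      omega
    calc loss K q r0 (T * r0) ^ T ≤ (2 * K * q ^ (2 * q ^ 2 * r ^ 4)) ^ T :=
          Nat.pow_le_pow_left hloss T
      _ ≤ (2 * K * q ^ (2 * q ^ 2 * r ^ 4)) ^ (q * r) := Nat.pow_le_pow_right hb1 hTr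
      _ = (2 * K) ^ (q * r) * q ^ (2 * q ^ 3 * r ^ 5) := by
          rw [mul_pow, ← pow_mul]
          congr 2
          ring
      _ ≤ _ := Nat.mul_le_mul_right _ (Nat.pow_le_pow_left (Nat.mul_le_mul_right _ hq) _)
  have hlast : 2 * (h * K * q ^ (q * r0)) + 2 ≤ (h + 1) * (q * K) * q ^ (q * r) := by
    have h1 : q ^ (q * r0) ≤ q ^ (q * r) :=
      Nat.pow_le_pow_right hq1 (Nat.mul_le_mul_left _ hr0r)
    have h2 : 1 ≤ q ^ (q * r) := Nat.one_le_pow _ _ hq1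
    have h3 : h * K * q ^ (q * r0) ≤ h * K * q ^ (q * r) := Nat.mul_le_mul_left _ h1
    calc 2 * (h * K * q ^ (q * r0)) + 2 ≤ 2 * (h * K * q ^ (q * r)) + 2 * (K * q ^ (q * r)) := by
          nlinarith [Nat.mul_le_mul hK1 h2]
      _ = (h + 1) * (2 * K) * q ^ (q * r) := by ring
      _ ≤ _ := Nat.mul_le_mul_right _ (Nat.mul_le_mul_left _ (Nat.mul_le_mul_right _ hq))
  calc loss K q r0 (T * r0) ^ T * (2 * (h * K * q ^ (q * r0)) + 2)
      ≤ ((q * K) ^ (q * r) * q ^ (2 * q ^ 3 * r ^ 5)) * ((h + 1) * (q * K) * q ^ (q * r)) :=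
        Nat.mul_le_mul hlossT hlast
    _ = (h + 1) * ((q * K) ^ (q * r + 1) * q ^ (2 * q ^ 3 * r ^ 5 + q * r)) := by
        rw [pow_succ, pow_add]; ring
    _ ≤ (h + 1) * ((q * K) ^ (q * r + 1) * (q * K) ^ (2 * q ^ 3 * r ^ 5 + q * r)) := by
        refine Nat.mul_le_mul_left _ (Nat.mul_le_mul_left _ (Nat.pow_le_pow_left ?_ _))
        exact Nat.le_mul_of_pos_right _ (by omega)
    _ = (h + 1) * (q * K) ^ (q * r + 1 + (2 * q ^ 3 * r ^ 5 + q * r)) := by rw [← pow_add]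
    _ ≤ (h + 1) * (q * K) ^ (4 * q ^ 3 * r ^ 5) := by
        refine Nat.mul_le_mul_left _ (Nat.pow_le_pow_right ?_ ?_)
        · have : 0 < q * K := by positivity
          omega
        · have h1 : q * r ≤ q ^ 3 * r ^ 5 := Nat.mul_le_mul (Nat.le_self_pow (by omega) _)
            (Nat.le_self_pow (by omega) _)
          have h2 : 2 * (q * r) + 1 ≤ 2 * (q ^ 3 * r ^ 5) := by
            have h3 : q ^ 3 * r ^ 5 = (q * r) * (q ^ 2 * r ^ 4) := by ring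
            have h4 : 2 ≤ q ^ 2 * r ^ 4 := by
              calc 2 ≤ q ^ 2 * 1 := by nlinarith
                _ ≤ _ := Nat.mul_le_mul_left _ (Nat.one_le_pow _ _ hr1)
            have h5 : 0 < q * r := by positivity
            nlinarith
          have h3 : 4 * q ^ 3 * r ^ 5 = 2 * (q ^ 3 * r ^ 5) + 2 * (q ^ 3 * r ^ 5) := by ring
          have h4 : 2 * q ^ 3 * r ^ 5 = 2 * (q ^ 3 * r ^ 5) := by ring
          omega

/-- The main theorem for `q` colours. -/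
theorem main {ρ : V → V → ℕ} (hρ : IsUltrametric ρ) (K : ℕ) (hK1 : 1 ≤ K)
    (hK : ∀ S : Finset V, Equilateral ρ S → S.card ≤ K) (h : ℕ) (hh : ∀ x y, ρ x y ≤ h)
    {q : ℕ} (hq : 2 ≤ q) (c : Finset V → Fin q) {n k m : ℕ}
    (hn : 1 ≤ n) (hk : 2 ≤ k) (hm : 1 ≤ m) (A : Finset V)
    (hA : (h + 1) * (q * K) ^ (4 * q ^ 3 * (m * (2 * n * k) ^ k) ^ 5) ≤ A.card) :
    ∃ e : Fin q, ∀ a : Fin q,
      (∃ S : Finset V, S.card = n ∧ ∀ T ⊆ S, T.card = 3 → c T ≠ a) ∨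
      ∃ A B : Finset V, A.card = k ∧ B.card = m ∧ Sep ρ A B ∧ Typed c e a A B := by
  obtain ⟨M, W, e, _, hb, hne⟩ := exists_blocks hρ K hK1 hK h hh hq c
    (m * (2 * n * (2 * n * k) ^ (k - 1)))
    (q * (n * (2 * n * k)) * (m * (2 * n * (2 * n * k) ^ (k - 1))))
    (q * (n * (2 * n * k))) ∅ A (by rw [card_empty, zero_add])
    ((bound hK1 hq hn hk hm).trans hA)
  exact core hq hn hk hm rfl hb hne

/-- Two colours. -/
theorem main_two {ρ : V → V → ℕ} (hρ : IsUltrametric ρ) (K : ℕ) (hK1 : 1 ≤ K)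
    (hK : ∀ S : Finset V, Equilateral ρ S → S.card ≤ K) (h : ℕ) (hh : ∀ x y, ρ x y ≤ h)
    (c : Finset V → Fin 2) {n k m : ℕ}
    (hn : 1 ≤ n) (hk : 2 ≤ k) (hm : 1 ≤ m) (A : Finset V)
    (hA : (h + 1) * (2 * K) ^ (32 * (m * (2 * n * k) ^ k) ^ 5) ≤ A.card) :
    (∃ a : Fin 2, ∃ S : Finset V, S.card = n ∧ Mono c a S) ∨
      ∃ A B : Finset V, A.card = k ∧ B.card = m ∧ Sep ρ A B ∧ ∃ a : Fin 2, Crossing c a A B := by
  obtain ⟨e, he⟩ := main hρ K hK1 hK h hh le_rfl c hn hk hm A (by simpa using hA)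
  rcases he e with ⟨S, hS, hSa⟩ | ⟨A, B, hA, hB, hAB, h1, h2⟩
  · left
    refine ⟨1 - e, S, hS, fun T hT hT3 => ?_⟩
    have key : ∀ a b : Fin 2, b ≠ a → b = 1 - a := by decide
    exact key e (c T) (hSa T hT hT3)
  · exact Or.inr ⟨A, B, hA, hB, hAB, e, crossing_of (sep_disjoint hAB) h1 h2⟩

/-- Four colours. -/
theorem four_colours (j : ℕ) : ∃ ρ : Fin (2 ^ 2 ^ j) → Fin (2 ^ 2 ^ j) → ℕ,
    IsUltrametric ρ ∧ (∀ S : Finset (Fin (2 ^ 2 ^ j)), Equilateral ρ S → S.card ≤ 2) ∧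
      (∀ x y, ρ x y ≤ 2 ^ j) ∧ ∃ c : Finset (Fin (2 ^ 2 ^ j)) → Fin 4,
        (∀ i, ∀ S : Finset (Fin (2 ^ 2 ^ j)), Mono c i S → S.card < 4 * j + 5) ∧
        ∀ (a : Fin 4) (A B : Finset (Fin (2 ^ 2 ^ j))), 2 ≤ A.card → 2 ≤ B.card → Sep ρ A B →
          ¬ Crossing c a A B := by
  obtain ⟨c, hc1, hc2⟩ := four j
  refine ⟨rho j, rho_ultra j, rho_equilateral j, rho_le j, c, hc1, ?_⟩
  intro a A B hA hB hs hc
  obtain ⟨x, y, hx, hy, hxy⟩ := one_lt_card_iff.1 hA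
  obtain ⟨z, t, hz, ht, hzt⟩ := one_lt_card_iff.1 hB
  have hd := disjoint_left.1 (sep_disjoint hs)
  have hxz : x ≠ z := fun h => hd hx (h ▸ hz)
  have hxt : x ≠ t := fun h => hd hx (h ▸ ht)
  have hyz : y ≠ z := fun h => hd hy (h ▸ hz)
  have hyt : y ≠ t := fun h => hd hy (h ▸ ht)
  have key : ∀ u v w : Fin (2 ^ 2 ^ j), u ≠ v → u ≠ w → v ≠ w → u ∈ A ∪ B → v ∈ A ∪ B →
      w ∈ A ∪ B → (u ∈ A) → (w ∈ B) → c {u, v, w} = a := by
    intro u v w huv huw hvw hu hv hw huA hwB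
    refine hc {u, v, w} ?_ ?_ ⟨u, ?_⟩ ⟨w, ?_⟩
    · intro s hs
      simp only [mem_insert, mem_singleton] at hs
      rcases hs with rfl | rfl | rfl <;> assumption
    · exact card_eq_three.2 ⟨u, v, w, huv, huw, hvw, rfl⟩
    · simp [huA]
    · simp [hwB]
  have hxm : x ∈ A ∪ B := mem_union_left _ hx
  have hym : y ∈ A ∪ B := mem_union_left _ hy
  have hzm : z ∈ A ∪ B := mem_union_right _ hz
  have htm : t ∈ A ∪ B := mem_union_right _ ht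
  refine hc2 x y z t ⟨hxy, hzt, (hs x hx z hz).1 y hy, (hs x hx z hz).2 t ht⟩ ⟨?_, ?_, ?_⟩
  · rw [key x y z hxy hxz hyz hxm hym hzm hx hz, key x y t hxy hxt hyt hxm hym htm hx ht]
  · rw [key x y z hxy hxz hyz hxm hym hzm hx hz, key x z t hxz hxt hzt hxm hzm htm hx ht]
  · rw [key x y z hxy hxz hyz hxm hym hzm hx hz, key y z t hyz hyt hzt hym hzm htm hy ht]

end Pool.Agent.H42.Bal
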