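import Pool.Agent.H42.Bal.Select

/-!
# Balanced pairs: the main argument
-/

namespace Pool.Agent.H42.Bal

open Finset Pool.Agent.H278R2.UltraLocal Pool.Agent.T2H15.CO

variable {V : Type*} [DecidableEq V]

/-- All triples of points of `A ∪ B` with points in both sets have colour `a`. -/
def Crossing {q : ℕ} (c : Finset V → Fin q) (a : Fin q) (A B : Finset V) : Prop :=
  ∀ T ⊆ A ∪ B, T.card = 3 → (T ∩ A).Nonempty → (T ∩ B).Nonempty → c T = a

theorem crossing_of {q : ℕ} {c : Finset V → Fin q} {a : Fin q} {A B : Finset V}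
    (hd : Disjoint A B)
    (h1 : ∀ x ∈ A, ∀ z ∈ B, ∀ z' ∈ B, z ≠ z' → c {x, z, z'} = a)
    (h2 : ∀ x ∈ A, ∀ x' ∈ A, x ≠ x' → ∀ z ∈ B, c {z, x, x'} = a) : Crossing c a A B := by
  intro T hT hT3 hTA hTB
  obtain ⟨x, hx⟩ := hTA
  obtain ⟨z, hz⟩ := hTB
  rw [mem_inter] at hx hz
  have hxz : x ≠ z := by
    rintro rfl
    exact disjoint_left.1 hd hx.2 hz.2
  obtain ⟨w, hw⟩ := card_eq_one.1 (show ((T.erase x).erase z).card = 1 by
    rw [card_erase_of_mem (mem_erase.2 ⟨hxz.symm, hz.1⟩), card_erase_of_mem hx.1, hT3])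
  have hwm : w ∈ (T.erase x).erase z := by rw [hw]; exact mem_singleton_self _
  have hwz : w ≠ z := (mem_erase.1 hwm).1
  have hwx : w ≠ x := (mem_erase.1 (mem_erase.1 hwm).2).1
  have hwT : w ∈ T := (mem_erase.1 (mem_erase.1 hwm).2).2
  have hTe : T = {x, z, w} := by
    rw [← insert_erase hx.1, ← insert_erase (mem_erase.2 ⟨hxz.symm, hz.1⟩), hw]
  rcases mem_union.1 (hT hwT) with hwA | hwB
  · have := h2 x hx.2 w hwA hwx.symm z hz.2
    rw [← this, hTe]
    congr 1
    ext y
    simp only [mem_insert, mem_singleton]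
    tauto
  · rw [hTe]
    exact h1 x hx.2 z hz.2 w hwB hwz.symm

omit [DecidableEq V] in
theorem sep_disjoint {ρ : V → V → ℕ} {A B : Finset V} (h : Sep ρ A B) : Disjoint A B := by
  rw [disjoint_left]
  intro x hx hxB
  exact lt_irrefl _ ((h x hx x hxB).1 x hx)

omit [DecidableEq V] in
theorem sep_mono {ρ : V → V → ℕ} {A B A' B' : Finset V} (h : Sep ρ A B) (hA : A' ⊆ A)
    (hB : B' ⊆ B) : Sep ρ A' B' := fun x hx z hz =>
  ⟨fun x' hx' => (h x (hA hx) z (hB hz)).1 x' (hA hx'),
    fun z' hz' => (h x (hA hx) z (hB hz)).2 z' (hB hz')⟩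

theorem sorted_three {J : Finset ℕ} (hJ : J.card = 3) :
    ∃ i j l, i < j ∧ j < l ∧ J = {i, j, l} := by
  have h := J.image_orderEmbOfFin_univ hJ
  refine ⟨J.orderEmbOfFin hJ 0, J.orderEmbOfFin hJ 1, J.orderEmbOfFin hJ 2, ?_, ?_, ?_⟩
  · exact (J.orderEmbOfFin hJ).strictMono (by decide)
  · exact (J.orderEmbOfFin hJ).strictMono (by decide)
  · refine h.symm.trans ?_
    ext x
    simp only [mem_image, mem_univ, true_and, mem_insert, mem_singleton]
    constructor
    · rintro ⟨i, rfl⟩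
      fin_cases i
      · left; rfl
      · right; left; rfl
      · right; right; rfl
    · rintro (rfl | rfl | rfl)
      · exact ⟨0, rfl⟩
      · exact ⟨1, rfl⟩
      · exact ⟨2, rfl⟩

/-- All triples with one point in `A` and two points in `B` have colour `e`, and all triples with
two points in `A` and one point in `B` have colour `a`. -/
def Typed {q : ℕ} (c : Finset V → Fin q) (e a : Fin q) (A B : Finset V) : Prop :=
  (∀ x ∈ A, ∀ z ∈ B, ∀ z' ∈ B, z ≠ z' → c {x, z, z'} = e) ∧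
    ∀ x ∈ A, ∀ x' ∈ A, x ≠ x' → ∀ z ∈ B, c {z, x, x'} = a

/-- The combinatorial core. -/
theorem core {ρ : V → V → ℕ} {q : ℕ} (hq : 2 ≤ q) {c : Finset V → Fin q} {r n k m : ℕ}
    (hn : 1 ≤ n) (hk : 2 ≤ k) (hm : 1 ≤ m) (hr : r = m * (2 * n * (2 * n * k) ^ (k - 1)))
    {M W : ℕ → Finset V} {e : ℕ → Fin q}
    (hb : Blocks ρ c ∅ r (q * (n * (2 * n * k))) M W e)
    (hne : (W (q * (n * (2 * n * k)))).Nonempty) :
    ∃ e₀ : Fin q, ∀ a : Fin q,
      (∃ S : Finset V, S.card = n ∧ ∀ T ⊆ S, T.card = 3 → c T ≠ a) ∨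
      ∃ A B : Finset V, A.card = k ∧ B.card = m ∧ Sep ρ A B ∧ Typed c e₀ a A B := by
  classical
  obtain ⟨y0, hy0⟩ := hne
  have : Nonempty V := ⟨y0⟩
  set t := n * (2 * n * k) with ht
  have hr1 : 1 ≤ r := by
    rw [hr]
    have : 0 < m * (2 * n * (2 * n * k) ^ (k - 1)) := by positivity
    omega
  -- a popular colour
  obtain ⟨e₀, _, ha⟩ := pigeon (range (q * t)) (univ : Finset (Fin q)) e (fun _ _ => mem_univ _)
    ⟨⟨0, by omega⟩, mem_univ _⟩
  refine ⟨e₀, fun a => ?_⟩
  rw [card_univ, Fintype.card_fin, card_range] at ha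
  set I := (range (q * t)).filter (fun i => e i = e₀) with hI
  have hIc : t ≤ I.card := Nat.le_of_mul_le_mul_left ha (by omega)
  have hIT : ∀ i ∈ I, i < q * t := fun i hi => mem_range.1 (mem_filter.1 hi).1
  have hIe : ∀ i ∈ I, e i = e₀ := fun i hi => (mem_filter.1 hi).2
  set Bd : ℕ → V → V → Prop := fun j z x => ∀ y ∈ W (j + 1), c {z, x, y} = a with hBd
  set R : ℕ → ℕ → Prop := fun i j =>
    ∃ x ∈ M j, ∃ Z ⊆ M i, (∀ z ∈ Z, Bd j z x) ∧ r ≤ n * Z.card with hR
  by_cases hcase : ∃ i ∈ I, ∃ J ⊆ I, J.card = 2 * n * k ∧ ∀ j ∈ J, i < j ∧ R i j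
  · right
    obtain ⟨i, hi, J, hJ, hJc, hJR⟩ := hcase
    have h1 : ∀ j ∈ J, ∃ x Z, x ∈ M j ∧ Z ⊆ M i ∧ (∀ z ∈ Z, Bd j z x) ∧ r ≤ n * Z.card := by
      intro j hj
      obtain ⟨x, hx, Z, hZ, hZB, hZc⟩ := (hJR j hj).2
      exact ⟨x, Z, hx, hZ, hZB, hZc⟩
    choose! x Z hx hZ hZB hZc using h1
    have hMi := hb.card i (hIT i hi)
    obtain ⟨S, hS, hSc, B, hB, hBc, hBZ⟩ := popular (M i) J Z n k (k - 1) m hn (by omega)
      (by omega) hJc (by rw [hMi, hr]) hZ (by intro j hj; rw [hMi]; exact hZc j hj)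
    have hjT : ∀ j ∈ S, j < q * t := fun j hj => hIT j (hJ (hS hj))
    have hij : ∀ j ∈ S, i < j := fun j hj => (hJR j (hS hj)).1
    have hinj : Set.InjOn x (S : Set ℕ) := by
      intro j hj j' hj' hjj
      by_contra hne
      rcases lt_or_gt_of_ne hne with hlt | hlt
      · have h1 := hb.mem_later hlt (hjT j' hj') (hx j' (hS hj'))
        rw [← hjj] at h1
        exact hb.notMem (hjT j hj) h1 (hx j (hS hj))
      · have h1 := hb.mem_later hlt (hjT j hj) (hx j (hS hj))
        rw [hjj] at h1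
        exact hb.notMem (hjT j' hj') h1 (hx j' (hS hj'))
    have hy0j : ∀ j ∈ S, y0 ∈ W (j + 1) := fun j hj => hb.anti (hjT j hj) le_rfl hy0
    have hy0S : y0 ∉ S.image x := by
      intro h
      obtain ⟨j, hj, hjy⟩ := mem_image.1 h
      exact hb.notMem (hjT j hj) (hy0j j hj) (hjy ▸ hx j (hS hj))
    have hAW : insert y0 (S.image x) ⊆ W (i + 1) := by
      intro w hw
      rw [mem_insert, mem_image] at hw
      rcases hw with rfl | ⟨j, hj, rfl⟩
      · exact hb.anti (hIT i hi) le_rfl hy0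
      · exact hb.mem_later (hij j hj) (hjT j hj) (hx j (hS hj))
    have hsep : Sep ρ (insert y0 (S.image x)) B := sep_mono (hb.sep i (hIT i hi)) hAW hB
    refine ⟨insert y0 (S.image x), B, ?_, hBc, hsep, ?_⟩
    · rw [card_insert_of_notMem hy0S, card_image_of_injOn hinj, hSc]
      omega
    · refine ⟨?_, ?_⟩
      · intro w hw z hz z' hz' hzz
        rw [hb.col i (hIT i hi) w (hAW hw) z (hB hz) z' (hB hz') hzz, hIe i hi]
      · have key : ∀ j ∈ S, ∀ w ∈ W (j + 1), ∀ z ∈ B, c {z, x j, w} = a := by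
          intro j hj w hw z hz
          exact hZB j (hS hj) z (hBZ j hj hz) w hw
        intro w hw w' hw' hne z hz
        rw [mem_insert, mem_image] at hw hw'
        rcases hw with rfl | ⟨j, hj, rfl⟩ <;> rcases hw' with rfl | ⟨j', hj', rfl⟩
        · exact absurd rfl hne
        · rw [show ({z, w, x j'} : Finset V) = {z, x j', w} by
            ext y; simp only [mem_insert, mem_singleton]; tauto]
          exact key j' hj' _ (hy0j j' hj') z hz
        · exact key j hj _ (hy0j j hj) z hz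
        · have hjj : j ≠ j' := by
            rintro rfl
            exact hne rfl
          rcases lt_or_gt_of_ne hjj with hlt | hlt
          · exact key j hj _ (hb.mem_later hlt (hjT j' hj') (hx j' (hS hj'))) z hz
          · rw [show ({z, x j, x j'} : Finset V) = {z, x j', x j} by
              ext y; simp only [mem_insert, mem_singleton]; tauto]
            exact key j' hj' _ (hb.mem_later hlt (hjT j hj) (hx j (hS hj))) z hz
  · left
    push Not at hcase
    have hK0 : 1 ≤ 2 * n * k := by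
      have : 0 < 2 * n * k := by positivity
      omega
    obtain ⟨J, hJ, hJc, hJR⟩ := independent R (2 * n * k) hK0 n I (by
      intro i hi J hJ h
      by_contra hcon
      push Not at hcon
      obtain ⟨J', hJ', hJc'⟩ := exists_subset_card_eq hcon
      obtain ⟨j, hj, hj2⟩ := hcase i hi J' (hJ'.trans hJ) hJc'
      exact hj2 (h j (hJ' hj)).1 (h j (hJ' hj)).2) hIc
    have hjT : ∀ j ∈ J, j < q * t := fun j hj => hIT j (hJ hj)
    obtain ⟨g, hg, hgB⟩ := transversal y0 M r n hr1 Bd n J hJc le_rfl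
      (fun j hj => hb.card j (hjT j hj)) (by
        intro i hi j hj hij x hx Z hZ hZB
        by_contra hcon
        push Not at hcon
        exact hJR i hi j hj hij ⟨x, hx, Z, hZ, hZB, hcon⟩)
    have hinj : Set.InjOn g (J : Set ℕ) := by
      intro j hj j' hj' hjj
      by_contra hne
      rcases lt_or_gt_of_ne hne with hlt | hlt
      · have h1 := hb.mem_later hlt (hjT j' hj') (hg j' hj')
        rw [← hjj] at h1
        exact hb.notMem (hjT j hj) h1 (hg j hj)
      · have h1 := hb.mem_later hlt (hjT j hj) (hg j hj)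
        rw [hjj] at h1
        exact hb.notMem (hjT j' hj') h1 (hg j' hj')
    refine ⟨J.image g, by rw [card_image_of_injOn hinj, hJc], ?_⟩
    intro T hT hT3 hTa
    obtain ⟨J', hJ', rfl⟩ := subset_image_iff.1 hT
    have hJ'J : J' ⊆ J := by exact_mod_cast hJ'
    rw [card_image_of_injOn (hinj.mono (by exact_mod_cast hJ'))] at hT3
    obtain ⟨i, j, l, hij, hjl, rfl⟩ := sorted_three hT3
    have hi : i ∈ J := hJ'J (by simp)
    have hj : j ∈ J := hJ'J (by simp)
    have hl : l ∈ J := hJ'J (by simp)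
    refine hgB i hi j hj hij ?_
    intro y hy
    have h1 := hb.hom j (hjT j hj) (g i)
      (mem_union_right _ (mem_biUnion.2 ⟨i, mem_range.2 hij, hg i hi⟩)) (g j) (hg j hj) y hy
      (g l) (hb.mem_later hjl (hjT l hl) (hg l hl))
    rw [h1, ← hTa]
    simp only [image_insert, image_singleton]

end Pool.Agent.H42.Bal
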