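import Pool.Agent.H42.Bal.Bound

/-!
# Balanced pairs in colourings of full height
-/

namespace Pool.Agent.H42.Bal

open Finset Pool.Agent.H278R2.UltraLocal Pool.Agent.T2H15.CO

theorem pow_bound {n k : ℕ} {c : ℝ} (hn : 3 ≤ n) (hc : 0 < c) (hc1 : c ≤ 1)
    (hk : (k : ℝ) * Real.log n ≤ c * n) :
    (((2 * n * k) ^ k : ℕ) : ℝ) ≤ ((2 : ℝ) ^ (c * n)) ^ 5 := by
  have hn0 : (0 : ℝ) < n := by positivity
  have hn3 : (3 : ℝ) ≤ n := by exact_mod_cast hn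
  have hlog : 1 ≤ Real.log n := by
    rw [Real.le_log_iff_exp_le hn0]
    exact (Real.exp_one_lt_d9.le.trans (by norm_num)).trans hn3
  have hkn : (k : ℝ) ≤ n := by
    have h1 : (k : ℝ) * 1 ≤ k * Real.log n := by gcongr
    have h2 : c * n ≤ 1 * n := by gcongr
    linarith
  have h2nk : ((2 * n * k : ℕ) : ℝ) ≤ (n : ℝ) ^ 3 := by
    push_cast
    calc (2 : ℝ) * n * k ≤ n * n * n := by gcongr; linarith
      _ = (n : ℝ) ^ 3 := by ring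
  have h1 : (((2 * n * k) ^ k : ℕ) : ℝ) ≤ ((n : ℝ) ^ 3) ^ k := by
    rw [Nat.cast_pow]
    gcongr
  have h2 : ((n : ℝ) ^ 3) ^ k = Real.exp (3 * (k * Real.log n)) := by
    rw [← pow_mul, ← Real.exp_log (pow_pos hn0 (3 * k)), Real.log_pow]
    push_cast
    congr 1
    ring
  have h3 : ((2 : ℝ) ^ (c * n)) ^ 5 = Real.exp (5 * Real.log 2 * (c * n)) := by
    rw [← Real.rpow_natCast, ← Real.rpow_mul (by norm_num), Real.rpow_def_of_pos (by norm_num)]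
    congr 1
    push_cast
    ring
  rw [h2] at h1
  rw [h3]
  refine h1.trans (Real.exp_le_exp.2 ?_)
  have hl2 := Real.log_two_gt_d9
  have : 0 ≤ c * n := by positivity
  nlinarith

theorem self_le_two_rpow {C : ℝ} (hC : 1 ≤ C) : C ≤ (2 : ℝ) ^ C := by
  have hb := one_add_mul_self_le_rpow_one_add (s := (1 : ℝ)) (by norm_num) hC
  norm_num at hb
  linarith

theorem size_bound {q : ℕ} (hq : 2 ≤ q) {ε : ℝ} (hε : 0 < ε) :
    ∃ c : ℝ, 0 < c ∧ ∃ n₀ : ℕ, 3 ≤ n₀ ∧ ∀ n, n₀ ≤ n → ∀ k m : ℕ,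
      (k : ℝ) * Real.log n ≤ c * n → (m : ℝ) ≤ (2 : ℝ) ^ (c * n) →
      ∀ h K : ℕ, (h : ℝ) ≤ (2 : ℝ) ^ (2 : ℝ) ^ (c * n) → (K : ℝ) ≤ (2 : ℝ) ^ (2 : ℝ) ^ (c * n) →
      (((h + 1) * (q * K) ^ (4 * q ^ 3 * (m * (2 * n * k) ^ k) ^ 5) : ℕ) : ℝ) ≤
        (2 : ℝ) ^ (2 : ℝ) ^ (ε * n) := by
  set C : ℝ := 2 + 4 * q ^ 3 * (q + 1) with hC
  have hq0 : (0 : ℝ) < q := by positivity
  have hC0 : 0 < C := by positivity
  have hC2 : 1 ≤ C := by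
    have : 0 < 4 * (q : ℝ) ^ 3 * (q + 1) := by positivity
    linarith
  refine ⟨min (ε / 62) 1, by positivity, max 3 ⌈2 * C / ε⌉₊, le_max_left _ _, ?_⟩
  intro n hn k m hk hm h K hh hK
  set c := min (ε / 62) 1 with hc
  have hc0 : 0 < c := by positivity
  have hn3 : 3 ≤ n := (le_max_left _ _).trans hn
  have hnC : 2 * C / ε ≤ n := Nat.ceil_le.1 ((le_max_right _ _).trans hn)
  set X : ℝ := (2 : ℝ) ^ (c * n) with hX
  have hX1 : 1 ≤ X := Real.one_le_rpow (by norm_num) (by positivity)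
  have hp5 := pow_bound hn3 hc0 (min_le_right _ _) hk
  rw [← hX] at hp5
  -- the exponent
  have hE : ((4 * q ^ 3 * (m * (2 * n * k) ^ k) ^ 5 : ℕ) : ℝ) ≤ 4 * q ^ 3 * X ^ 30 := by
    have h1 : ((m * (2 * n * k) ^ k : ℕ) : ℝ) ≤ X ^ 6 := by
      rw [Nat.cast_mul]
      calc (m : ℝ) * (((2 * n * k) ^ k : ℕ) : ℝ) ≤ X * X ^ 5 := by gcongr
        _ = X ^ 6 := by ring
    calc ((4 * q ^ 3 * (m * (2 * n * k) ^ k) ^ 5 : ℕ) : ℝ)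
        = 4 * q ^ 3 * ((m * (2 * n * k) ^ k : ℕ) : ℝ) ^ 5 := by push_cast; ring
      _ ≤ 4 * q ^ 3 * (X ^ 6) ^ 5 := by gcongr
      _ = 4 * q ^ 3 * X ^ 30 := by ring
  have hb : ((q * K : ℕ) : ℝ) ≤ (2 : ℝ) ^ ((q : ℝ) + X) := by
    rw [Real.rpow_add (by norm_num), Nat.cast_mul]
    have : (q : ℝ) ≤ (2 : ℝ) ^ (q : ℝ) := by
      rw [Real.rpow_natCast]
      exact_mod_cast (Nat.lt_two_pow_self (n := q)).le
    gcongr
  have hb1 : (1 : ℝ) ≤ (2 : ℝ) ^ ((q : ℝ) + X) := Real.one_le_rpow (by norm_num) (by positivity)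
  have hpow : (((q * K) ^ (4 * q ^ 3 * (m * (2 * n * k) ^ k) ^ 5) : ℕ) : ℝ) ≤
      (2 : ℝ) ^ (((q : ℝ) + X) * (4 * q ^ 3 * X ^ 30)) := by
    rw [Nat.cast_pow]
    calc ((q * K : ℕ) : ℝ) ^ (4 * q ^ 3 * (m * (2 * n * k) ^ k) ^ 5)
        ≤ ((2 : ℝ) ^ ((q : ℝ) + X)) ^ (4 * q ^ 3 * (m * (2 * n * k) ^ k) ^ 5) := by gcongr
      _ = ((2 : ℝ) ^ ((q : ℝ) + X)) ^ ((4 * q ^ 3 * (m * (2 * n * k) ^ k) ^ 5 : ℕ) : ℝ) :=
          (Real.rpow_natCast _ _).symm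
      _ ≤ ((2 : ℝ) ^ ((q : ℝ) + X)) ^ (4 * (q : ℝ) ^ 3 * X ^ 30) :=
          Real.rpow_le_rpow_of_exponent_le hb1 hE
      _ = _ := (Real.rpow_mul (by norm_num) _ _).symm
  have hh1 : ((h + 1 : ℕ) : ℝ) ≤ (2 : ℝ) ^ (X + 1) := by
    rw [Real.rpow_add (by norm_num), Real.rpow_one]
    have : (1 : ℝ) ≤ (2 : ℝ) ^ X := Real.one_le_rpow (by norm_num) (by positivity)
    push_cast
    linarith
  have htot : (((h + 1) * (q * K) ^ (4 * q ^ 3 * (m * (2 * n * k) ^ k) ^ 5) : ℕ) : ℝ) ≤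
      (2 : ℝ) ^ (X + 1 + ((q : ℝ) + X) * (4 * q ^ 3 * X ^ 30)) := by
    rw [Nat.cast_mul, Real.rpow_add (by norm_num)]
    gcongr
  refine htot.trans (Real.rpow_le_rpow_of_exponent_le (by norm_num) ?_)
  have hX31 : X ≤ X ^ 31 := le_self_pow₀ hX1 (by norm_num)
  have h31 : 1 ≤ X ^ 31 := one_le_pow₀ hX1
  have hle : X + 1 + ((q : ℝ) + X) * (4 * q ^ 3 * X ^ 30) ≤ C * X ^ 31 := by
    have h1 : (q : ℝ) + X ≤ (q + 1) * X := by nlinarith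
    have h2 : ((q : ℝ) + X) * (4 * q ^ 3 * X ^ 30) ≤ ((q + 1) * X) * (4 * q ^ 3 * X ^ 30) := by
      gcongr
    have h3 : ((q : ℝ) + 1) * X * (4 * q ^ 3 * X ^ 30) = 4 * q ^ 3 * (q + 1) * X ^ 31 := by ring
    rw [hC]
    nlinarith
  refine hle.trans ?_
  have hXe : X ^ 31 ≤ (2 : ℝ) ^ (ε * n / 2) := by
    rw [hX, ← Real.rpow_natCast, ← Real.rpow_mul (by norm_num)]
    refine Real.rpow_le_rpow_of_exponent_le (by norm_num) ?_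
    have hcε : c ≤ ε / 62 := min_le_left _ _
    have : c * n ≤ ε / 62 * n := by gcongr
    push_cast
    nlinarith
  have hCe : C ≤ (2 : ℝ) ^ (ε * n / 2) := by
    have h1 : C ≤ ε * n / 2 := by
      rw [div_le_iff₀ hε] at hnC
      linarith
    exact (self_le_two_rpow hC2).trans (Real.rpow_le_rpow_of_exponent_le (by norm_num) h1)
  calc C * X ^ 31 ≤ (2 : ℝ) ^ (ε * n / 2) * (2 : ℝ) ^ (ε * n / 2) := by gcongr
    _ = (2 : ℝ) ^ (ε * n) := by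
      rw [← Real.rpow_add (by norm_num)]
      congr 1
      ring

/-- Colourings of full height. -/
theorem full_height {q : ℕ} (hq : 2 ≤ q) {ε : ℝ} (hε : 0 < ε) :
    ∃ c : ℝ, 0 < c ∧ ∃ n₀ : ℕ, ∀ n, n₀ ≤ n → ∀ (V : Type) [Fintype V] [DecidableEq V]
      (ρ : V → V → ℕ), IsUltrametric ρ →
      (∀ x y, (ρ x y : ℝ) ≤ (2 : ℝ) ^ (2 : ℝ) ^ (c * n)) →
      (∀ S : Finset V, Equilateral ρ S → (S.card : ℝ) ≤ (2 : ℝ) ^ (2 : ℝ) ^ (c * n)) →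
      (2 : ℝ) ^ (2 : ℝ) ^ (ε * n) ≤ Fintype.card V →
      ∀ k m : ℕ, 2 ≤ k → 1 ≤ m → (k : ℝ) * Real.log n ≤ c * n → (m : ℝ) ≤ (2 : ℝ) ^ (c * n) →
      ∀ χ : Finset V → Fin q, ∃ e : Fin q, ∀ a : Fin q,
        (∃ S : Finset V, S.card = n ∧ ∀ T ⊆ S, T.card = 3 → χ T ≠ a) ∨
        ∃ A B : Finset V, A.card = k ∧ B.card = m ∧ Sep ρ A B ∧ Typed χ e a A B := by
  obtain ⟨c, hc, n₀, hn₀, hmain⟩ := size_bound hq hε
  refine ⟨c, hc, n₀, ?_⟩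
  intro n hn V _ _ ρ hρ hh hK hV k m hk hm hkc hmc χ
  set h := ⌊(2 : ℝ) ^ (2 : ℝ) ^ (c * n)⌋₊ with hdef
  have hfl : (h : ℝ) ≤ (2 : ℝ) ^ (2 : ℝ) ^ (c * n) := Nat.floor_le (by positivity)
  have h1 : 1 ≤ h := by
    rw [hdef, Nat.one_le_floor_iff]
    exact Real.one_le_rpow (by norm_num) (by positivity)
  refine main hρ h h1 (fun S hS => Nat.le_floor (hK S hS)) h (fun x y => Nat.le_floor (hh x y))
    hq χ (by omega) hk hm univ ?_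
  have := (hmain n hn k m hkc hmc h h hfl hfl).trans hV
  rw [card_univ]
  exact_mod_cast this

end Pool.Agent.H42.Bal
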