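import Pool.Agent.H42.Bal.Seq

/-!
# Balanced pairs: selections
-/

namespace Pool.Agent.H42.Bal

open Finset

/-- A degenerate relation has large independent sets. -/
theorem independent (R : ℕ → ℕ → Prop) (K0 : ℕ) (hK0 : 1 ≤ K0) (n : ℕ) :
    ∀ I : Finset ℕ, (∀ i ∈ I, ∀ J ⊆ I, (∀ j ∈ J, i < j ∧ R i j) → J.card < K0) →
      n * K0 ≤ I.card → ∃ J ⊆ I, J.card = n ∧ ∀ i ∈ J, ∀ j ∈ J, i < j → ¬ R i j := by
  classical
  induction n with
  | zero => intro I _ _; exact ⟨∅, empty_subset _, rfl, by simp⟩
  | succ n ih =>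
    intro I hI hc
    by_cases hne : I.Nonempty
    · set i := I.min' hne with hi
      have hiI : i ∈ I := min'_mem _ _
      have hrich := hI i hiI (I.filter (fun j => i < j ∧ R i j)) (filter_subset _ _)
        (fun j hj => (mem_filter.1 hj).2)
      set I' := (I.erase i).filter (fun j => ¬ R i j) with hI'
      have hI'I : I' ⊆ I := (filter_subset _ _).trans (erase_subset _ _)
      have hcard : I.card ≤ I'.card + K0 := by
        have h1 : I.erase i ⊆ I' ∪ I.filter (fun j => i < j ∧ R i j) := by
          intro j hj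
          by_cases hR : R i j
          · refine mem_union_right _ (mem_filter.2 ⟨mem_of_mem_erase hj, ?_, hR⟩)
            exact lt_of_le_of_ne (min'_le _ _ (mem_of_mem_erase hj)) (mem_erase.1 hj).1.symm
          · exact mem_union_left _ (mem_filter.2 ⟨hj, hR⟩)
        have h2 := (card_le_card h1).trans (card_union_le _ _)
        rw [card_erase_of_mem hiI] at h2
        have : 0 < I.card := card_pos.2 hne
        omega
      obtain ⟨J, hJ, hJc, hJR⟩ := ih I' (fun i' hi' J hJ h => hI i' (hI'I hi') J (hJ.trans hI'I) h)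
        (by rw [Nat.succ_mul] at hc; omega)
      have hiJ : i ∉ J := fun h => (mem_erase.1 (mem_filter.1 (hJ h)).1).1 rfl
      refine ⟨insert i J, insert_subset hiI (hJ.trans hI'I), ?_, ?_⟩
      · rw [card_insert_of_notMem hiJ, hJc]
      · intro a ha b hb hab
        rw [mem_insert] at ha hb
        rcases ha with rfl | ha
        · rcases hb with rfl | hb
          · exact absurd hab (lt_irrefl _)
          · exact (mem_filter.1 (hJ hb)).2
        · rcases hb with rfl | hb
          · have := min'_le I a (hI'I (hJ ha))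
            omega
          · exact hJR a ha b hb hab
    · rw [not_nonempty_iff_eq_empty] at hne
      subst hne
      rw [card_empty] at hc
      have : 0 < (n + 1) * K0 := by positivity
      omega

variable {V : Type*} [DecidableEq V]

/-- Greedy choice of a transversal. -/
theorem transversal (v0 : V) (M : ℕ → Finset V) (r n : ℕ) (hr : 1 ≤ r)
    (Bd : ℕ → V → V → Prop) (m : ℕ) :
    ∀ J : Finset ℕ, J.card = m → m ≤ n → (∀ j ∈ J, (M j).card = r) →
      (∀ i ∈ J, ∀ j ∈ J, i < j → ∀ x ∈ M j, ∀ Z ⊆ M i, (∀ z ∈ Z, Bd j z x) → n * Z.card < r) →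
      ∃ g : ℕ → V, (∀ j ∈ J, g j ∈ M j) ∧ ∀ i ∈ J, ∀ j ∈ J, i < j → ¬ Bd j (g i) (g j) := by
  classical
  induction m with
  | zero =>
    intro J hJ _ hM _
    rw [card_eq_zero] at hJ
    subst hJ
    exact ⟨fun _ => v0, by simp, by simp⟩
  | succ m ih =>
    intro J hJ hmn hM hP
    have hne : J.Nonempty := card_pos.1 (by omega)
    set i := J.min' hne with hi
    have hiJ : i ∈ J := min'_mem _ _
    have hJ' : (J.erase i).card = m := by rw [card_erase_of_mem hiJ]; omega
    have hlt : ∀ j ∈ J.erase i, i < j := fun j hj =>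
      lt_of_le_of_ne (min'_le _ _ (mem_of_mem_erase hj)) (mem_erase.1 hj).1.symm
    obtain ⟨g, hg, hgB⟩ := ih (J.erase i) hJ' (by omega) (fun j hj => hM j (mem_of_mem_erase hj))
      (fun a ha b hb => hP a (mem_of_mem_erase ha) b (mem_of_mem_erase hb))
    set X := (J.erase i).biUnion (fun j => (M i).filter (fun z => Bd j z (g j))) with hX
    have hXc : n * X.card ≤ ∑ j ∈ J.erase i, n * ((M i).filter (fun z => Bd j z (g j))).card := by
      rw [← mul_sum]
      exact Nat.mul_le_mul_left _ card_biUnion_le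
    have hXs : ∑ j ∈ J.erase i, n * ((M i).filter (fun z => Bd j z (g j))).card ≤
        ∑ _j ∈ J.erase i, (r - 1) := by
      refine sum_le_sum fun j hj => ?_
      have := hP i hiJ j (mem_of_mem_erase hj) (hlt j hj) (g j) (hg j hj)
        ((M i).filter (fun z => Bd j z (g j))) (filter_subset _ _)
        (fun z hz => (mem_filter.1 hz).2)
      omega
    rw [sum_const, smul_eq_mul, hJ'] at hXs
    have hXr : X.card < r := by
      by_contra hcon
      push Not at hcon
      have h1 : n * r ≤ n * X.card := Nat.mul_le_mul_left _ hcon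
      have h2 : m * (r - 1) ≤ m * r := Nat.mul_le_mul_left _ (by omega)
      have h3 : (m + 1) * r ≤ n * r := Nat.mul_le_mul_right _ hmn
      have h4 : (m + 1) * r = m * r + r := by ring
      omega
    obtain ⟨z, hz, hzX⟩ : ∃ z ∈ M i, z ∉ X := by
      by_contra hcon
      push Not at hcon
      have := card_le_card (show M i ⊆ X from hcon)
      rw [hM i hiJ] at this
      omega
    refine ⟨Function.update g i z, ?_, ?_⟩
    · intro j hj
      by_cases hji : j = i
      · rw [hji, Function.update_self]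
        exact hz
      · rw [Function.update_of_ne hji]
        exact hg j (mem_erase.2 ⟨hji, hj⟩)
    · intro a ha b hb hab
      have hbi : b ≠ i := by
        rintro rfl
        have := min'_le J a ha
        omega
      rw [Function.update_of_ne hbi]
      by_cases hai : a = i
      · rw [hai, Function.update_self]
        intro hB
        exact hzX (mem_biUnion.2 ⟨b, mem_erase.2 ⟨hbi, hb⟩, mem_filter.2 ⟨hz, hB⟩⟩)
      · rw [Function.update_of_ne hai]
        exact hgB a (mem_erase.2 ⟨hai, ha⟩) b (mem_erase.2 ⟨hbi, hb⟩) hab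

/-- Many dense subsets of a set: some `s` of them have a large intersection. -/
theorem popular (M : Finset V) (J : Finset ℕ) (Z : ℕ → Finset V) (n k s m : ℕ) (hn : 1 ≤ n)
    (hk : 1 ≤ k) (hs : s ≤ k) (hJ : J.card = 2 * n * k)
    (hM : m * (2 * n * (2 * n * k) ^ s) ≤ M.card)
    (hZM : ∀ j ∈ J, Z j ⊆ M) (hZ : ∀ j ∈ J, M.card ≤ n * (Z j).card) :
    ∃ S ⊆ J, S.card = s ∧ ∃ B ⊆ M, B.card = m ∧ ∀ j ∈ S, B ⊆ Z j := by
  classical
  set D : V → Finset ℕ := fun z => J.filter (fun j => z ∈ Z j) with hD
  have hsum : ∑ z ∈ M, (D z).card = ∑ j ∈ J, (Z j).card := by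
    have h1 : ∀ j ∈ J, (Z j).card = (M.filter (fun z => z ∈ Z j)).card := by
      intro j hj
      congr 1
      ext z
      rw [mem_filter]
      exact ⟨fun h => ⟨hZM j hj h, h⟩, fun h => h.2⟩
    rw [sum_congr rfl h1]
    simp only [hD, card_filter]
    exact sum_comm
  have hlow : 2 * k * M.card ≤ ∑ z ∈ M, (D z).card := by
    have h1 : J.card * M.card ≤ n * ∑ j ∈ J, (Z j).card := by
      rw [mul_sum]
      calc J.card * M.card = ∑ _j ∈ J, M.card := by rw [sum_const, smul_eq_mul]
        _ ≤ _ := sum_le_sum hZ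
    rw [hJ, ← hsum] at h1
    refine Nat.le_of_mul_le_mul_left ?_ (show 0 < n by omega)
    calc n * (2 * k * M.card) = 2 * n * k * M.card := by ring
      _ ≤ _ := h1
  set G := M.filter (fun z => s ≤ (D z).card) with hG
  have hup : ∑ z ∈ M, (D z).card ≤ k * M.card + 2 * n * k * G.card := by
    rw [← sum_filter_add_sum_filter_not M (fun z => s ≤ (D z).card)]
    have h1 : ∑ z ∈ M with s ≤ (D z).card, (D z).card ≤ G.card * (2 * n * k) := by
      rw [← smul_eq_mul, ← sum_const]
      exact sum_le_sum fun z _ => hJ ▸ card_filter_le _ _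
    have h2 : ∑ z ∈ M with ¬ s ≤ (D z).card, (D z).card ≤ M.card * k := by
      calc ∑ z ∈ M with ¬ s ≤ (D z).card, (D z).card ≤ ∑ z ∈ M with ¬ s ≤ (D z).card, k :=
            sum_le_sum fun z hz => by
              have := (mem_filter.1 hz).2
              omega
        _ = (M.filter (fun z => ¬ s ≤ (D z).card)).card * k := by rw [sum_const, smul_eq_mul]
        _ ≤ M.card * k := Nat.mul_le_mul_right _ (card_filter_le _ _)
    calc _ ≤ G.card * (2 * n * k) + M.card * k := Nat.add_le_add h1 h2
      _ = _ := by ring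
  have hGc : M.card ≤ 2 * n * G.card := by
    have h1 : 2 * k * M.card ≤ k * M.card + 2 * n * k * G.card := hlow.trans hup
    refine Nat.le_of_mul_le_mul_left ?_ (show 0 < k by omega)
    have h2 : 2 * k * M.card = k * M.card + k * M.card := by ring
    have h3 : 2 * n * k * G.card = k * (2 * n * G.card) := by ring
    omega
  have hGne : ∀ z ∈ G, ∃ S ∈ powersetCard s J, ∀ j ∈ S, z ∈ Z j := by
    intro z hz
    obtain ⟨S, hS, hSc⟩ := exists_subset_card_eq (mem_filter.1 hz).2
    exact ⟨S, mem_powersetCard.2 ⟨hS.trans (filter_subset _ _), hSc⟩,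
      fun j hj => (mem_filter.1 (hS hj)).2⟩
  choose! φ hφ1 hφ2 using hGne
  have hne : (powersetCard s J).Nonempty := by
    rw [powersetCard_nonempty, hJ]
    nlinarith
  obtain ⟨S, hS, hSc⟩ := pigeon G (powersetCard s J) φ hφ1 hne
  have hS' := mem_powersetCard.1 hS
  rw [card_powersetCard, hJ] at hSc
  have hch : (2 * n * k).choose s ≤ (2 * n * k) ^ s := Nat.choose_le_pow _ _
  have hfib : m ≤ (G.filter (fun z => φ z = S)).card := by
    have hpos : 0 < 2 * n * (2 * n * k) ^ s := by positivity
    refine Nat.le_of_mul_le_mul_left ?_ hpos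
    calc 2 * n * (2 * n * k) ^ s * m = m * (2 * n * (2 * n * k) ^ s) := by ring
      _ ≤ M.card := hM
      _ ≤ 2 * n * G.card := hGc
      _ ≤ 2 * n * ((2 * n * k) ^ s * (G.filter (fun z => φ z = S)).card) :=
        Nat.mul_le_mul_left _ (hSc.trans (Nat.mul_le_mul_right _ hch))
      _ = _ := by ring
  obtain ⟨B, hB, hBc⟩ := exists_subset_card_eq hfib
  refine ⟨S, hS'.1, hS'.2, B, hB.trans ((filter_subset _ _).trans (filter_subset _ _)), hBc, ?_⟩
  intro j hj z hz
  have h1 := mem_filter.1 (hB hz)
  have := hφ2 z h1.1 j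
  rw [h1.2] at this
  exact this hj

end Pool.Agent.H42.Bal
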