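import Pool.Agent.H42.Bal.Basic

/-!
# Balanced pairs: the sequence of blocks
-/

namespace Pool.Agent.H42.Bal

open Finset Pool.Agent.H278R2.UltraLocal Pool.Agent.T2H15.CO

variable {V : Type*} [DecidableEq V]

/-- A sequence of `T` blocks `M 0, M 1, …` of size `r` in decreasing sets `W 0, W 1, …`. -/
structure Blocks (ρ : V → V → ℕ) {q : ℕ} (c : Finset V → Fin q) (U : Finset V) (r T : ℕ)
    (M W : ℕ → Finset V) (e : ℕ → Fin q) : Prop where
  sub : ∀ i < T, M i ⊆ W i
  mono : ∀ i < T, W (i + 1) ⊆ W i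
  card : ∀ i < T, (M i).card = r
  sep : ∀ i < T, Sep ρ (W (i + 1)) (M i)
  col : ∀ i < T, ∀ x ∈ W (i + 1), ∀ z ∈ M i, ∀ z' ∈ M i, z ≠ z' → c {x, z, z'} = e i
  hom : ∀ i < T, ∀ z ∈ U ∪ (range i).biUnion M, ∀ x ∈ M i, ∀ y ∈ W (i + 1), ∀ y' ∈ W (i + 1),
    c {z, x, y} = c {z, x, y'}

/-- The loss in one step -/
def loss (K q r P : ℕ) : ℕ := 2 * K * ((q ^ (q * r)) ^ r * q) * q ^ (P ^ 2)

theorem loss_pos {K q r P : ℕ} (hK : 1 ≤ K) (hq : 2 ≤ q) : 0 < loss K q r P := by
  unfold loss
  have h1 : 0 < q ^ (P ^ 2) := Nat.pow_pos (by omega)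
  have h2 : 0 < (q ^ (q * r)) ^ r := Nat.pow_pos (Nat.pow_pos (by omega))
  positivity

theorem exists_blocks {ρ : V → V → ℕ} (hρ : IsUltrametric ρ) (K : ℕ) (hK1 : 1 ≤ K)
    (hK : ∀ S : Finset V, Equilateral ρ S → S.card ≤ K) (h : ℕ) (hh : ∀ x y, ρ x y ≤ h)
    {q : ℕ} (hq : 2 ≤ q) (c : Finset V → Fin q) (r P : ℕ) :
    ∀ (T : ℕ) (U A : Finset V), U.card + T * r ≤ P →
      loss K q r P ^ T * (2 * (h * K * q ^ (q * r)) + 2) ≤ A.card →
      ∃ (M W : ℕ → Finset V) (e : ℕ → Fin q), W 0 = A ∧ Blocks ρ c U r T M W e ∧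
        (W T).Nonempty := by
  intro T
  induction T with
  | zero =>
    intro U A _ hA
    refine ⟨fun _ => ∅, fun _ => A, fun _ => ⟨0, by omega⟩, rfl, ?_, ?_⟩
    · constructor <;> intro i hi <;> omega
    · rw [← card_pos]
      rw [pow_zero, one_mul] at hA
      show 0 < A.card
      omega
  | succ T ih =>
    intro U A hU hA
    set B := 2 * (h * K * q ^ (q * r)) + 2 with hB
    have hlp : 0 < loss K q r P := loss_pos hK1 hq
    have hA0 : B ≤ A.card := by
      refine le_trans ?_ hA
      exact Nat.le_mul_of_pos_left _ (Nat.pow_pos hlp)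
    obtain ⟨L, hL, M0, hM0, e0, hM0c, hsep, hcol, hLc⟩ :=
      block hρ K hK1 hK h hh hq c r A hA0
    obtain ⟨W1, hW1, hW1c, hhom⟩ := homogenise hq c (U ∪ M0) L
    have hUM : (U ∪ M0).card ≤ U.card + r := (card_union_le _ _).trans (by omega)
    have hUP : (U ∪ M0).card ≤ P := by
      have : (T + 1) * r = T * r + r := by ring
      omega
    have hAW : A.card ≤ loss K q r P * W1.card := by
      have h1 : q ^ ((U ∪ M0).card ^ 2) ≤ q ^ (P ^ 2) :=
        Nat.pow_le_pow_right (by omega) (Nat.pow_le_pow_left hUP 2)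
      calc A.card ≤ 2 * K * ((q ^ (q * r)) ^ r * q) * L.card := hLc
        _ ≤ 2 * K * ((q ^ (q * r)) ^ r * q) * (q ^ (P ^ 2) * W1.card) :=
          Nat.mul_le_mul_left _ (hW1c.trans (Nat.mul_le_mul_right _ h1))
        _ = loss K q r P * W1.card := by unfold loss; ring
    have hW1B : loss K q r P ^ T * B ≤ W1.card := by
      refine Nat.le_of_mul_le_mul_left ?_ hlp
      calc loss K q r P * (loss K q r P ^ T * B) = loss K q r P ^ (T + 1) * B := by ring
        _ ≤ A.card := hA
        _ ≤ _ := hAW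
    obtain ⟨M, W, e, hW0, hbl, hne⟩ := ih (U ∪ M0) W1 (by
      have : (T + 1) * r = T * r + r := by ring
      omega) hW1B
    refine ⟨fun i => Nat.casesOn i M0 M, fun i => Nat.casesOn i A W,
      fun i => Nat.casesOn i e0 e, rfl, ?_, hne⟩
    constructor
    · intro i hi
      cases i with
      | zero => exact hM0
      | succ i => exact hbl.sub i (by omega)
    · intro i hi
      cases i with
      | zero =>
        show W 0 ⊆ A
        rw [hW0]
        exact hW1.trans hL
      | succ i => exact hbl.mono i (by omega)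
    · intro i hi
      cases i with
      | zero => exact hM0c
      | succ i => exact hbl.card i (by omega)
    · intro i hi
      cases i with
      | zero =>
        show Sep ρ (W 0) M0
        rw [hW0]
        intro x hx z hz
        obtain ⟨h1, h2⟩ := hsep x (hW1 hx) z hz
        exact ⟨fun x' hx' => h1 x' (hW1 hx'), h2⟩
      | succ i => exact hbl.sep i (by omega)
    · intro i hi
      cases i with
      | zero =>
        show ∀ x ∈ W 0, ∀ z ∈ M0, ∀ z' ∈ M0, z ≠ z' → c {x, z, z'} = e0
        rw [hW0]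
        intro x hx
        exact hcol x (hW1 hx)
      | succ i => exact hbl.col i (by omega)
    · intro i hi
      cases i with
      | zero =>
        show ∀ z ∈ U ∪ (range 0).biUnion _, ∀ x ∈ M0, ∀ y ∈ W 0, ∀ y' ∈ W 0,
          c {z, x, y} = c {z, x, y'}
        rw [hW0]
        intro z hz x hx
        simp only [range_zero, biUnion_empty, union_empty] at hz
        exact hhom z (mem_union_left _ hz) x (mem_union_right _ hx)
      | succ i =>
        intro z hz x hx
        refine hbl.hom i (by omega) z ?_ x hx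
        rw [mem_union, mem_biUnion] at hz
        rcases hz with hz | ⟨j, hj, hz⟩
        · exact mem_union_left _ (mem_union_left _ hz)
        · cases j with
          | zero => exact mem_union_left _ (mem_union_right _ hz)
          | succ j =>
            refine mem_union_right _ (mem_biUnion.2 ⟨j, ?_, hz⟩)
            rw [mem_range] at hj ⊢
            omega

namespace Blocks

variable {ρ : V → V → ℕ} {q : ℕ} {c : Finset V → Fin q} {U : Finset V} {r T : ℕ}
  {M W : ℕ → Finset V} {e : ℕ → Fin q}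

theorem anti (hb : Blocks ρ c U r T M W e) {i j : ℕ} (hij : i ≤ j) (hj : j ≤ T) :
    W j ⊆ W i := by
  induction j, hij using Nat.le_induction with
  | base => exact Subset.refl _
  | succ j hij ih => exact (hb.mono j (by omega)).trans (ih (by omega))

theorem mem_later (hb : Blocks ρ c U r T M W e) {i j : ℕ} (hij : i < j) (hj : j < T) {x : V}
    (hx : x ∈ M j) : x ∈ W (i + 1) :=
  hb.anti hij hj.le (hb.sub j hj hx)

theorem notMem (hb : Blocks ρ c U r T M W e) {i : ℕ} (hi : i < T) {x : V}
    (hx : x ∈ W (i + 1)) : x ∉ M i := by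
  intro h
  obtain ⟨h1, _⟩ := hb.sep i hi x hx x h
  exact lt_irrefl _ (h1 x hx)

end Blocks

end Pool.Agent.H42.Bal
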